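import Pool.Agent.P.MP_3ac48a_al.RkGen

namespace Pool.Agent.Results.MP_3ac48a_al.AnyRank

open Pool.Agent.P.MP_3ac48a_al

theorem result (I J : Type) [Infinite I] [Infinite J] (H : J → Type) [∀ j, Group (H j)]
    [∀ j, Countable (H j)] [∀ j, Nontrivial (H j)] :
    Nonempty (Ends (FreeGroup I) ≃ₜ Ends (Monoid.CoprodI H)) ↔ Nonempty (I ≃ J) :=
  Rk.main_gen I J H

/-- The two groups of the posed question. -/
theorem posed :
    Nonempty (Ends (FreeGroup ℕ) ≃ₜ Ends (Monoid.CoprodI fun _ : ℕ => Multiplicative (ℤ × ℤ))) :=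
  have : Countable (Multiplicative (ℤ × ℤ)) := inferInstanceAs (Countable (ℤ × ℤ))
  (result ℕ ℕ _).2 ⟨Equiv.refl ℕ⟩

end Pool.Agent.Results.MP_3ac48a_al.AnyRank
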