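import Pool.Agent.P.MP_3ac48a_al.ClProd

namespace Pool.Agent.Results.MP_3ac48a_al.Classification

open Pool.Agent.P.MP_3ac48a_al TopologicalSpace

theorem result (G : Type) [Group G] [Countable G] :
    Nonempty (Ends G ≃ₜ Ends (FreeGroup ℕ)) ↔
      SeparableSpace (Ends G) ∧ ¬ MetrizableSpace (Ends G) :=
  Cl.classification G

/-- The case of a free product of a sequence of nontrivial countable groups. -/
theorem case_free_product (H : ℕ → Type) [∀ i, Group (H i)] [∀ i, Countable (H i)]
    [∀ i, Nontrivial (H i)] : Nonempty (Ends (Monoid.CoprodI H) ≃ₜ Ends (FreeGroup ℕ)) :=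
  have := Cl.countable_coprod (H := H)
  (result _).2 Cl.coprod_hyp

/-- The two groups of the posed question. -/
theorem posed :
    Nonempty (Ends (Monoid.CoprodI fun _ : ℕ => Multiplicative (ℤ × ℤ)) ≃ₜ Ends (FreeGroup ℕ)) :=
  have : Countable (Multiplicative (ℤ × ℤ)) := inferInstanceAs (Countable (ℤ × ℤ))
  case_free_product _

end Pool.Agent.Results.MP_3ac48a_al.Classification
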